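import Pool.Agent.H.MP_b9874d_an.B

open scoped ZeroAtInfty

namespace Pool.Agent.Results.MP_b9874d_an.Main

open Pool.Agent.H.MP_b9874d_an

theorem result : ∃ (X : Type) (_ : NormedAddCommGroup X) (_ : NormedSpace ℂ X)
    (_ : CompleteSpace X) (T : X →L[ℂ] X), PropA T ∧ ¬ Dense {x | UFRecVec T x} :=
  ⟨C₀(ℤ, ℂ), inferInstance, inferInstance, inferInstance, T, propA, not_dense⟩

end Pool.Agent.Results.MP_b9874d_an.Main
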